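import Pool.Agent.MP_40785c_co.Main

set_option autoImplicit false

namespace Pool.Agent.Results.MP_40785c_co.TreeRadius

theorem result {V : Type*} [Fintype V] [Nontrivial V] (G : SimpleGraph V) [DecidableRel G.Adj]
    (hG : G.Connected) :
    ∃ S : Finset V, (G.induce (S : Set V)).IsTree ∧
      2 * (G.radius.toNat : ℝ) / (G.minDegree : ℝ) ≤ (S.card : ℝ) :=
  Pool.Agent.MP_40785c_co.tree_bound G hG

end Pool.Agent.Results.MP_40785c_co.TreeRadius
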